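import Pool.Agent.H7.IA.Defs

/-!
# Cliques with `t ≥ 4` vertices, large residues: statements of the board `ia` (MP_fd41b2_co)

`b = p + 3 = ω - 1`, `u = w + 2 = t - 1`, `w ≥ 1`, `Δ = (p + 3) a + r`, `c₁ = c1 p w = choose (b-1) (t-2)`,
`PrT p w r`: `w ≤ p`, `r ≤ p`, `2 r choose (r-1) (w+1) < c₁ (2 r - (w+1)(b-r))`. THEOREM (FNT): for large `a`
the supremum of the number of `t`-cliques per vertex is attained, by a graph with at most `(p + 5) a`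
vertices. Row `XXX` = `def XXXStmt : Prop`; file `Pool/Agent/H<k>/IA/XXX.lean`, `import
Pool.Agent.H7.IA.Stmts`, namespace `Pool.IA7`, `open Pool.Agent.H23.KT Pool.Agent.H46.KW Pool.KQ Pool.GT7
Pool.GU7 Pool.HZ7`. Many rows are copies of rows of the board `hz` (`Pool.HZ7`, files
`Pool/Agent/H*/HZ/XXX.lean`) with `(w + 2)`-cliques in place of edges; `HZ7` rows without `t` are used as
they are (`SPX MLG REF ARR FND COA COB COR GRE`; `PrT p w r` gives `PrZ p r`, row PWT).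
IDEA. As `hz`: (1) most vertices are clean; (2) there is a core `Cor` (now used as the block); (3) for a
block `S` with excess `s ≥ 2` or with large total deficit the number of `t`-cliques meeting `S` is small;
for `s = 1` and total deficit `≤ 1` no clique leaves `S`; for `s = 1` and total deficit between `2` and a
constant the graph in `S` can be improved by one edge (AUG, MOD). So deleting `S` proves the theorem.
-/

set_option autoImplicit false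

open Finset

namespace Pool.IA7

open Pool.Agent.H23.KT Pool.Agent.H46.KW Pool.KQ Pool.GT7 Pool.GU7 Pool.HZ7

/-! ### Most vertices are clean -/

/-- (PWT) Pointwise inequality. `φ = pt`. PROOF. `w ≥ 1`, `rs`: `2 r > (w+1)(b-r) ≥ 2 (b-r)`, so `b < 2 r`; `φ < 1`. Slack at
`B`: for `B + 1 ≤ r` (`ww = 0`): `c₁ (1-φ) - choose B (w+1) ≥ c₁ (1-φ) - choose (r-1) (w+1) ≥ 1/(2r)` (`rs` is an inequality of
integers). For `q = B + 1 ≥ r`: `q * slack = G q := c₁ ((1-φ) q + φ b (q-r)/(b-r)) - (w+2) choose q (w+2)` (`q choose (q-1) (w+1) = (w+2)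
choose q (w+2)`); `G b = 0`, `G r = r (c₁ (1-φ) - choose (r-1) (w+1)) ≥ 1/2`, `G` is concave on the integers `≥ r` (the differences of
`choose q (w+2)` increase), so `G q ≥ (b-q)/(b-r) G r` and for `q ≤ b - 1` the slack is `≥ 1/(2 b (b-r))`. -/
def PWTStmt : Prop :=
  ∀ p w r : ℕ, PrT p w r → PrZ p r ∧ 0 < pt p w r ∧ pt p w r < 1 ∧
    (∀ B ≤ p + 2, (B.choose (w + 1) : ℝ) ≤
      c1 p w * (1 - pt p w r) + pt p w r * c1 p w * ww p r B) ∧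
    (∀ B ≤ p + 1, (B.choose (w + 1) : ℝ) + 1 / (2 * ((p : ℝ) + 3) ^ 2) ≤
      c1 p w * (1 - pt p w r) + pt p w r * c1 p w * ww p r B)

/-- (CMP) The cost of the missing pairs. Needs EST (1). PROOF. `b = p + 3`. The `(w+2)`-subsets with elements in different parts: `es
(sz P) (w+2)`. Let `x` be the number of missing pairs in such a set: `[x ≥ 1] ≥ x - choose x 2`. `∑ x ≥ (tot/2) choose (p+1) w ((1-e) a)^w`.
`∑ choose x 2`: two missing pairs with a common vertex `y`: `≤ ∑_y (h y)^2 (2 b a)^(w-1)` (`w ≥ 1`; `h y ≤ b f a`, `∑ h = tot ≤ C a`), so `≤ K f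
a^(w+1)`; two disjoint ones: `≤ tot^2 (2 b a)^(w-2)` (only if `w ≥ 2`), `≤ K a^w`. (`w = 0`: exact.) -/
def CMPStmt : Prop :=
  ∀ p w : ℕ, w ≤ p → ∀ C ε : ℝ, 0 < C → 0 < ε → ∃ f₀ : ℝ, 0 < f₀ ∧ f₀ ≤ 1 ∧ ∃ a₀ : ℕ, ∀ a ≥ a₀,
    ∀ {V : Type} [DecidableEq V] (G : SimpleGraph V) (e f : ℝ) (P : Fin (p + 3) → Finset V),
    0 ≤ e → e ≤ f₀ → f ≤ f₀ → Par G P →
    (∀ i, (1 - e) * a ≤ ((P i).card : ℝ) ∧ ((P i).card : ℝ) ≤ (1 + e) * a) →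
    (∀ i, ∀ u ∈ P i, ∀ k, k ≠ i → ((non G (P k) u).card : ℝ) ≤ f * a) → (tot G P : ℝ) ≤ C * a →
    (kc G (un P) (w + 2) : ℝ) + (tot G P : ℝ) / 2 * ((p + 1).choose w * (a : ℝ) ^ w) ≤
      es (sz P) (w + 2) + ε * (a : ℝ) ^ (w + 1)

/-- (UCL) Cliques with exceptional vertices. PROOF. No, one, or at least two elements in `U`. -/
def UCLStmt : Prop :=
  ∀ {V : Type} [DecidableEq V] (G : SimpleGraph V) (p w : ℕ) (W : Finset V)
    (P : Fin (p + 3) → Finset V) (U : Finset V), (∀ i, Disjoint (P i) U) →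
    (∀ u, u ∈ W ↔ u ∈ U ∨ ∃ i, u ∈ P i) →
    kc G W (w + 2) ≤ kc G (un P) (w + 2) + ∑ z ∈ U, kc G (nb G (un P) z) (w + 1) +
      U.card ^ 2 * W.card ^ w

/-- (XLO) Sizes. Needs EST (4), SWL. PROOF. EST (4) at one `i` (`n⁺` = update), then SWL with `c = 0` (`lo = 0`, `hi = Δ + 1`) for
`n⁺` with sum `(p+3) a + r`. -/
def XLOStmt : Prop :=
  ∀ (p w a r x lo : ℕ) (n : Fin (p + 3) → ℕ), r ≤ p → ∑ i, n i + x = (p + 3) * a + r →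
    (∀ i, lo ≤ n i) →
    es n (w + 2) + x * ((p + 2).choose (w + 1) * lo ^ (w + 1)) ≤ TT (p + 3) (w + 2) a r

/-- (ZST) One exceptional vertex (as `Pool.HZ7.ZSUStmt`). Needs PWT, EXB, TRV. PROOF. Sum PWT over `L ∈ clq G X b`, `B = card (nb G L z) ≤ p +
2` (`CB G W (p+3)`): `∑ choose B (w+1) + nlow/(2 b^2) ≤ N c₁ (1-φ) + φ c₁ TZ`; EXB (`j = w + 1`), `N ≤ ((1+e) a)^b`; divide by `a^(b-w-1)`. -/
def ZSTStmt : Prop :=
  ∀ p w r : ℕ, PrT p w r → ∀ δ : ℝ, 0 < δ → ∃ e₀ : ℝ, 0 < e₀ ∧ e₀ ≤ 1 / 2 ∧ ∀ C : ℝ, 0 < C →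
    ∃ a₀ : ℕ, ∀ a ≥ a₀, ∀ {V : Type} [DecidableEq V] (G : SimpleGraph V) (e f C' : ℝ)
    (W : Finset V) (P : Fin (p + 3) → Finset V) (U : Finset V), 0 ≤ e → e ≤ e₀ →
    Stq G p a e f C C' W P U → CB G W (p + 3) → ∀ z ∈ U,
    (kc G (nb G (un P) z) (w + 1) : ℝ) +
        1 / (2 * ((p : ℝ) + 3) ^ 2) * (nlow G p (un P) z : ℝ) / (a : ℝ) ^ (p + 2 - w) ≤
      c1 p w * (1 - pt p w r) * (a : ℝ) ^ (w + 1) + Mt p w r a * TZ G p r (un P) z +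
        δ * (a : ℝ) ^ (w + 1)

/-- (LOT) The local inequality (as `Pool.HZ7.LOQStmt`, with the same order of the constants). Needs PWT, MLG, CMP, UCL, XLO, SPX, ZST, TRV.
PROOF. `M = Mt`, `φ = pt`, `x = Δ - card (un P) = card U + d`. SPX: `M ∑ min ≤ M [x N + ∑ mm - ∑_z TZ] + K a^w` (`M a^(b-1) = φ c₁ a^w`). `M x N ≤ φ
c₁ a^(w+1) x + (ε/8) a^(w+1)`. MLG: `M ∑ mm ≤ φ c₁ a^w (1+e)^(b-1) tot (r/((b-r)(b-1)) + b f/2)` and `φ c₁ r/((b-r)(b-1)) = c₁ (w+1)/(2 (b-1)) =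
choose (p+1) w/2`, so `≤ (tot/2) choose (p+1) w a^w + (ε/8) a^(w+1)`. `df ≥ TT - es + (tot/2) choose (p+1) w a^w - ∑_z κ - (ε/8) a^(w+1)` (CMP, UCL;
`C'^2 Δ^w ≤ K a^w`), `TT - es ≥ x c₁ ((1-e) a - 1)^(w+1)` (XLO with `lo = ⌊(1-e) a⌋`), ZST with `δ = ε/(8 C')`. So `df - M ∑ min ≥ (1-φ) c₁ a^(w+1) (x -
card U) + ∑ nlow/(2 b^2 a^(p+2-w)) - ε a^(w+1)`. -/
def LOTStmt : Prop :=
  ∀ p w r : ℕ, PrT p w r → ∀ C ε : ℝ, 0 < C → 0 < ε → ∃ f : ℝ, 0 < f ∧ f ≤ 1 ∧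
    ∀ C' : ℝ, 0 < C' → ∃ e₀ : ℝ, 0 < e₀ ∧ e₀ ≤ 1 / 2 ∧ ∃ a₀ : ℕ, ∀ a ≥ a₀,
    ∀ {V : Type} [DecidableEq V] (G : SimpleGraph V) (e : ℝ) (W : Finset V)
    (P : Fin (p + 3) → Finset V) (U : Finset V),
    0 ≤ e → e ≤ e₀ → Stq G p a e f C C' W P U → CB G W (p + 3) → W.card ≤ (p + 3) * a + r →
    (((p + 3) * a + r : ℕ) : ℝ) ≤ W.card + C' →
    Mt p w r a * ∑ L ∈ clq G W (p + 3), min (r : ℝ) (XX G p r a W L) +
        (1 - pt p w r) * c1 p w * (a : ℝ) ^ (w + 1) *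
          ((((p + 3) * a + r : ℕ) : ℝ) - W.card) +
        1 / (2 * ((p : ℝ) + 3) ^ 2) *
          ∑ z ∈ U, (nlow G p (un P) z : ℝ) / (a : ℝ) ^ (p + 2 - w) ≤
      df G p w r a W + ε * (a : ℝ) ^ (w + 1)

/-- (WVT) The inequality for every vertex (as `Pool.HZ7.WSVStmt`). Needs STC, MMC, REF, LOT, PWT, TTR (3), ZYG. PROOF. As there, with `a^(w+1)` in
place of `a`: `C₂ = 2^b c₁ pt r + ltt + 1`; bonus `≥ (1-φ) c₁ a^(w+1)` if `card W < Δ`, `≥ cz/(2 b^2) a^(w+1)` if `U ≠ ∅`. -/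
def WVTStmt : Prop :=
  ∀ p w r : ℕ, PrT p w r → ∃ c C : ℝ, 0 < c ∧ 0 < C ∧ ∀ ε e : ℝ, 0 < ε → 0 < e → e ≤ 1 / 8 →
    ∃ a₀ : ℕ, ∀ a ≥ a₀, ∀ {V : Type} [Fintype V] [DecidableEq V] (G : SimpleGraph V),
    G8 G p r a → ∀ v : V, ∃ s : ℝ, (s = c ∨ s = 0 ∧ ∃ P, Cl G p r a e C v P) ∧
      Mt p w r a * ∑ L ∈ clq G (nb G univ v) (p + 3), min (r : ℝ) (XX G p r a (nb G univ v) L) -
          Mt p w r a * ((r : ℝ) / ((p : ℝ) + 4)) * kc G (nb G univ v) (p + 3) +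
          ltt p w r * (a : ℝ) ^ (w + 1) + s * (a : ℝ) ^ (w + 1) ≤
        df G p w r a (nb G univ v) + ε * (a : ℝ) ^ (w + 1)

/-- (WGT) Nearly all vertices are clean (as `Pool.HZ7.WSGStmt`). Needs WVT, PHI0. PROOF as there. -/
def WGTStmt : Prop :=
  ∀ p w r : ℕ, PrT p w r → ∃ C : ℝ, 0 < C ∧ ∀ ε e K : ℝ, 0 < ε → 0 < e → e ≤ 1 / 8 →
    ∃ a₀ : ℕ, ∀ a ≥ a₀, ∀ {V : Type} [Fintype V] [DecidableEq V] (G : SimpleGraph V),
    G8 G p r a →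
    ∑ v, df G p w r a (nb G univ v) ≤
      (ltt p w r * (a : ℝ) ^ (w + 1) + K * (a : ℝ) ^ w) * Fintype.card V →
    ∃ (D : Finset V) (P : V → Fin (p + 3) → Finset V), (∀ v ∈ D, Cl G p r a e C v (P v)) ∧
      ((univ \ D).card : ℝ) ≤ ε * Fintype.card V

/-! ### Counting in a block -/

/-- (DLC) The deficits (as `Pool.HZ7.DLBStmt`, for `Cor`). PROOF as there; `h u ≤ b (b+2) e1 a = (b+2)/(16 b^2) a ≤ a/(12 b)` (`b ≥ 6`). -/
def DLCStmt : Prop :=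
  ∀ p r : ℕ, PrZ p r → ∀ C : ℝ, 0 < C → ∃ K : ℕ, ∀ a ≥ K,
    ∀ {V : Type} [Fintype V] [DecidableEq V] (G : SimpleGraph V) (Q : Fin (p + 4) → Finset V),
    G8 G p r a → Cor G p r a C Q → ∃ (s : ℕ) (σ : Fin (p + 4) → ℕ), 1 ≤ s ∧ s ≤ K ∧
      (∀ j, σ j ≤ K) ∧ (∀ j, (Q j).card + σ j = a + s) ∧ ∑ j, σ j + r = (p + 3) * s ∧
      (un Q).card = (p + 3) * a + r + a + s ∧
      (∀ j, ∀ u ∈ Q j, ∑ k ∈ univ.erase j, (non G (Q k) u).card =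
        σ j + dl G p r a (un Q) u) ∧
      (∀ u ∈ un Q, (nb G (univ \ un Q) u).card ≤ dl G p r a (un Q) u) ∧
      (∀ u ∈ un Q, (dl G p r a (un Q) u : ℝ) ≤ a / (12 * ((p : ℝ) + 3))) ∧
      ((∑ u ∈ un Q, dl G p r a (un Q) u : ℕ) : ℝ) ≤ C * a

/-- (KBT) Upper bound for the number of `t`-cliques in a block. Needs EST (1). PROOF. As CMP for `p + 4` parts and `(w+3)`-sets. `x` =
number of missing pairs: `[x ≥ 1] ≥ x - choose x 2`. `∑ x ≥ (tot/2) choose (p+2) (w+1) (a - C)^(w+1)`. `∑ choose x 2`: common vertex `u`: `≤ ∑_u choose (h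
u) 2 * choose (p+1) w (a + C)^w ≤ ∑_u (h u)^2 choose (p+1) w a^w` (`(a+C)^w ≤ 2 a^w`); disjoint: `≤ tot^2 ((p+5) a)^(w-1) ≤ K a^(w+1)`. -/
def KBTStmt : Prop :=
  ∀ p w : ℕ, 1 ≤ w → w ≤ p → ∀ C : ℝ, 0 < C → ∃ K : ℝ, 0 < K ∧ ∃ a₀ : ℕ, ∀ a ≥ a₀,
    ∀ {V : Type} [DecidableEq V] (G : SimpleGraph V) (Q : Fin (p + 4) → Finset V), Par G Q →
    (∀ j, (a : ℝ) ≤ (Q j).card + C ∧ ((Q j).card : ℝ) ≤ a + C) → (tot G Q : ℝ) ≤ C * a →
    (kc G (un Q) (w + 3) : ℝ) + 1 / 2 * c1 p w * (a : ℝ) ^ (w + 1) * tot G Q ≤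
      es (sz Q) (w + 3) + (p + 1).choose w * (a : ℝ) ^ w *
        ∑ j, ∑ u ∈ Q j, ((∑ k ∈ univ.erase j, (non G (Q k) u).card : ℕ) : ℝ) ^ 2 +
      K * (a : ℝ) ^ (w + 1)

/-- (CRT) The cliques which meet `S`. `c z = card (nb G (univ \ S) z)`. PROOF. All vertices in `S`; exactly one vertex `q` outside; at
least two outside: if there is a `z ∈ S \ Z`: two outer neighbours of `z` (`≤ (c z)^2` choices), the other `w` vertices in `N(z)` (`≤ Δ^w`).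
Otherwise the part in `S` is in `Z`: one vertex `z` and `w + 2` outer ones: `≤ (c z)^(w+2)`; or at least two vertices of `Z`, then `z`,
another one (`card Z` choices), two outer neighbours of `z`, and `w - 1` more in `Z ∪ (N(z) \ S)`. The second part: a clique with
vertices on both sides has at least two edges between `S` and its complement (`w + 3 ≥ 3` vertices). -/
def CRTStmt : Prop :=
  ∀ {V : Type} [Fintype V] [DecidableEq V] (G : SimpleGraph V) (S Z : Finset V) (w Δ : ℕ),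
    1 ≤ w → Z ⊆ S → (∀ v, (nb G univ v).card ≤ Δ) →
    kc G univ (w + 3) ≤ kc G (univ \ S) (w + 3) + kc G S (w + 3) +
      ∑ q ∈ univ \ S, kc G (nb G S q) (w + 2) +
      ∑ z ∈ S \ Z, (nb G (univ \ S) z).card ^ 2 * Δ ^ w +
      ∑ z ∈ Z, (nb G (univ \ S) z).card ^ (w + 2) +
      ∑ z ∈ Z, Z.card * (nb G (univ \ S) z).card ^ 2 *
        (Z.card + (nb G (univ \ S) z).card) ^ (w - 1) ∧
    (∑ z ∈ S, (nb G (univ \ S) z).card ≤ 1 →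
      kc G univ (w + 3) ≤ kc G (univ \ S) (w + 3) + kc G S (w + 3))

/-- (CQT) The cliques which leave the block are paid for. Needs CRT, ZYG. The hypotheses are the conclusions of DLC. `h u = σ j + dl u`.
PROOF. `b = p + 3`, `δ = dl`, `c z ≤ δ z`, `κ = 1/(12 b) ≤ 1/72`. `Z = {u ∈ un Q : δ u ≥ η a}`, `η = c₁/(200 (b+1)^w (1 + c₁))` or smaller, `card Z ≤ C/η`. CRT:
(i) `∑_q kc G (nb G S q) (w+2) ≤ ∑_q choose b (w+2) (n_q/b)^(w+2) = ∑ c₁ n_q/(w+2) (n_q/b)^(w+1) ≤ (c₁/3)(a+1)^(w+1) ∑ c` (ZYG, `N(q)` has no `(b+1)`-clique,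
`n_q ≤ Δ ≤ b (a+1)`, `∑_q n_q = ∑_z c z`). (ii) outside `Z`: `(c z)^2 Δ^w ≤ η a (b+1)^w a^w δ`. (iii) in `Z`: `(c z)^(w+2) ≤ κ^(w+1) a^(w+1) δ`, and the last sum is `≤
K a^w δ`. (iv) `choose (p+1) w a^w (σ + δ)^2 ≤ c₁ a^w (2 σ^2 + 2 δ^2)` (`choose (p+1) w ≤ c₁`), `2 δ^2 ≤ 2 η a δ` or `≤ 2 κ a δ`; `∑ 2 σ^2 ≤ K a`. All
together with the `1/10`: `1/3 + 1/200 + 1/5184 + 2/72 + 1/10 < 1/2`, the lower order terms for `a` large. -/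
def CQTStmt : Prop :=
  ∀ p w r : ℕ, PrT p w r → PrZ p r → ∀ K₀ : ℕ, ∃ K : ℝ, 0 < K ∧ ∃ a₀ : ℕ, ∀ a ≥ a₀,
    ∀ {V : Type} [Fintype V] [DecidableEq V] (G : SimpleGraph V) (Q : Fin (p + 4) → Finset V)
    (σ : Fin (p + 4) → ℕ), G8 G p r a → Par G Q → (∀ j, σ j ≤ K₀) →
    (∀ j, (Q j).card ≤ a + K₀) →
    (∀ j, ∀ u ∈ Q j, ∑ k ∈ univ.erase j, (non G (Q k) u).card = σ j + dl G p r a (un Q) u) →
    (∀ u ∈ un Q, (nb G (univ \ un Q) u).card ≤ dl G p r a (un Q) u) →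
    (∀ u ∈ un Q, (dl G p r a (un Q) u : ℝ) ≤ a / (12 * ((p : ℝ) + 3))) →
    ((∑ u ∈ un Q, dl G p r a (un Q) u : ℕ) : ℝ) ≤ K₀ * a →
    (kc G univ (w + 3) : ℝ) - kc G (univ \ un Q) (w + 3) - kc G (un Q) (w + 3) +
        (p + 1).choose w * (a : ℝ) ^ w *
          ∑ j, ∑ u ∈ Q j, ((∑ k ∈ univ.erase j, (non G (Q k) u).card : ℕ) : ℝ) ^ 2 +
        1 / 10 * c1 p w * (a : ℝ) ^ (w + 1) * ∑ u ∈ un Q, (dl G p r a (un Q) u : ℝ) ≤
      1 / 2 * c1 p w * (a : ℝ) ^ (w + 1) * ∑ u ∈ un Q, (dl G p r a (un Q) u : ℝ) +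
        K * (a : ℝ) ^ (w + 1)

/-- (CST) The same if the sum of the deficits is bounded. Needs CRT (with `Z = ∅`). PROOF. `D = ∑ δ ≤ M`: `∑_q kc G (nb G S q) (w+2) ≤ ∑_q (n_q)^(w+2) ≤
M^(w+2)`, `∑ (c z)^2 Δ^w ≤ M^2 ((p+4) a)^w`. -/
def CSTStmt : Prop :=
  ∀ p w r M : ℕ, 1 ≤ w → r ≤ p → ∃ K : ℝ, 0 < K ∧ ∀ a : ℕ, 1 ≤ a →
    ∀ {V : Type} [Fintype V] [DecidableEq V] (G : SimpleGraph V) (S : Finset V), G8 G p r a →
    (∀ u ∈ S, (nb G (univ \ S) u).card ≤ dl G p r a S u) →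
    ∑ u ∈ S, dl G p r a S u ≤ M →
    (kc G univ (w + 3) : ℝ) - kc G (univ \ S) (w + 3) - kc G S (w + 3) ≤ K * (a : ℝ) ^ w

/-! ### Improving a block -/

/-- (AUG) Two deficits can be removed. `s = 1`, `H` = the missing pairs (`mis G Q`), `δ u` = deficit, `h u = σ j + δ u` = degree in `H`.
PROOF. `b = p + 3`, `σ j ≤ b`, `h u ≤ K' := b + K`, `n j = a + 1 - σ j`, `b - r ≥ 3`. The number of `u` with `δ u > 0` is `≤ K`. Choose `w, w'` with `δ ≥ 1`,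
different, or `w = w'` with `δ w ≥ 2`. (0) `w w' ∈ H`: `EA = {w w'}`, `EB = ∅`. Otherwise let `y ∈ N_H(w)`, `y' ∈ N_H(w')`, `y ≠ y'` if `w = w'` (`h ≥ δ`);
`y ∈ Q k`, `y' ∈ Q k'`. (1) `k ≠ k'`, `y y' ∉ H`: `EA = {w y, w' y'}`, `EB = {y y'}`. (2) Otherwise let `z₁ z₂ ∈ H` with `z₁ ∉ Q k`, `z₂ ∉ Q k'`, `z₁, z₂ ∉ {w, w', y,
y'}`, `y z₁, y' z₂ ∉ H`: `EA = {w y, w' y', z₁ z₂}`, `EB = {y z₁, y' z₂}`. The ordered pairs `(z₁, z₂)` of `H` with `z₁ ∉ Q k`, `z₂ ∉ Q k'` number `≥ ∑ n σ - n k σ k -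
n k' σ k' - K ≥ a (b - r - σ k - σ k') - K''`; all but `K''` of them satisfy the other conditions. So (2) works if `σ k + σ k' < b - r`. Now `σ k + σ k'
≥ b - r`. If `k ≠ k'`: `= b - r`, all other `σ` are `0`, so all but `2 K` ordered pairs of `H` are between `Q k` and `Q k'`, hence `σ k, σ k' ≥ 1` and there are
`≥ a - K''` pairs `(z₁, z₂) ∈ Q k' × Q k`: (2). If `k = k'`: `n k σ k ≤ ∑_(u ∈ Q k) h u ≤ ∑_(u ∉ Q k) h u ≤ a (b - r - σ k) + K''` gives `2 σ k ≤ b - r`, so `2 σ k = b - r`,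
and `w, w' ∉ Q k`. With `e_k` = number of pairs of `H` avoiding `Q k`: `2 e_k = ∑_(∉ Q k) h - ∑_(∈ Q k) h = τ + ∑_(∉ Q k) δ - ∑_(Q k) δ`, `τ = σ k^2 - ∑_(i ≠ k) σ i^2 ≥ 0`. (3) If some
`w'' ∈ Q k` has `δ ≥ 1`: use `w, w''`: `w w'' ∈ H` is (0); its neighbour `y'' ∉ Q k`: the case `k ≠ k'` above. (4) Otherwise `e_k ≥ 1`: let `z₁ z₂ ∈ H` avoid `Q k`. If it
contains `w` (or `w'`), take the other end for `y` (`y'`): the case `k ≠ k'`. Otherwise choose pairs `g g'`, `g₂ g₂'` of `H` with `g', g₂' ∈ Q k`, all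
different from each other and from `w, w', y, y', z₁, z₂`, and `g y, g₂ y', g' z₁, g₂' z₂ ∉ H` (there are `≥ a - K''` pairs of `H` which meet `Q k`): `EA = {w y, g g', w' y',
g₂ g₂', z₁ z₂}`, `EB = {g y, g₂ y', g' z₁, g₂' z₂}`. In all cases every `u` is in at most `δ u` more elements of `EA` than of `EB`. -/
def AUGStmt : Prop :=
  ∀ p r : ℕ, r ≤ p → ∀ K : ℕ, ∃ a₀ : ℕ, ∀ a ≥ a₀,
    ∀ {V : Type} [DecidableEq V] (G : SimpleGraph V) (Q : Fin (p + 4) → Finset V)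
    (σ : Fin (p + 4) → ℕ) (δ : V → ℕ), Par G Q → (∀ j, (Q j).card + σ j = a + 1) →
    ∑ j, σ j + r = p + 3 →
    (∀ j, ∀ u ∈ Q j, ∑ k ∈ univ.erase j, (non G (Q k) u).card = σ j + δ u) →
    2 ≤ ∑ u ∈ un Q, δ u → ∑ u ∈ un Q, δ u ≤ K →
    ∃ EA EB : Finset (Sym2 V), (EA : Set (Sym2 V)) ⊆ mis G Q ∧ (EB : Set (Sym2 V)) ⊆ cro G Q ∧
      EA.card = EB.card + 1 ∧ EA.card ≤ 5 ∧ ∀ u ∈ un Q, dgE EA u ≤ dgE EB u + δ u

/-- (MOD) The number of cliques after the change. PROOF. `G' = md G EA EB`. `Par` and degrees: clear (`EB ⊆` edges, `EA ⊆` non-edges, all between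
different parts of `un Q`). `t = w + 3`. Each element of `EB` is in at most `c₁ (a+K)^(w+1)` `t`-cliques of `G` in `un Q`. Each `x = u v ∈ EA` is in at least
`c₁ (a-K)^(w+1) - K' a^w` `t`-cliques of `G'` in `un Q`: among the sets `{u, v} ∪ T`, `T` a partial transversal of the other parts with `w + 1` elements
(`≥ c₁ (a-K)^(w+1)` of them), those with a missing pair of `G'` are `≤ K' a^w` (a missing pair with `u` or `v`: `≤ 2 (K+5)` choices of its other end;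
inside `T`: `≤ (p+4)(a+K)(K+5)` pairs, `a^(w-1)` sets each). Sets which contain two elements of `EA`: `≤ 25 K' a^w`. So `kc G' ≥ kc G - |EB| c₁
(a+K)^(w+1) + |EA| (c₁ (a-K)^(w+1) - K' a^w) - K' a^w ≥ kc G + c₁ a^(w+1) - K'' a^w`. -/
def MODStmt : Prop :=
  ∀ p w : ℕ, 1 ≤ w → w ≤ p → ∀ K : ℕ, ∃ a₀ : ℕ, ∀ a ≥ a₀,
    ∀ {V : Type} [DecidableEq V] (G : SimpleGraph V) (Q : Fin (p + 4) → Finset V)
    (EA EB : Finset (Sym2 V)), Par G Q → (∀ j, a ≤ (Q j).card + K ∧ (Q j).card ≤ a + K) →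
    (∀ j, ∀ u ∈ Q j, ∑ k ∈ univ.erase j, (non G (Q k) u).card ≤ K) →
    (EA : Set (Sym2 V)) ⊆ mis G Q → (EB : Set (Sym2 V)) ⊆ cro G Q → EA.card = EB.card + 1 →
    EA.card ≤ 5 →
    Par (md G EA EB) Q ∧
    (∀ u ∈ un Q, (nb (md G EA EB) (un Q) u).card + dgE EB u = (nb G (un Q) u).card + dgE EA u) ∧
    (kc G (un Q) (w + 3) : ℝ) + 1 / 2 * c1 p w * (a : ℝ) ^ (w + 1) ≤
      kc (md G EA EB) (un Q) (w + 3)

/-! ### Numbers and the reference graph -/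

/-- (NTS) `Y = Yt`. Needs EST (1), TTR. PROOF. `n j = a + s - σ j`, `∑ σ = b s - r`, everything bounded: `es n (w+3) = choose (b+1) t a^t + choose b (t-1) (r+s)
a^(t-1) + O(a^(t-2))`, `∑ n σ = a (b s - r) + O(1)`, `choose b (t-1) = c₁ b/(t-1)`. (1) `s = 1`: the two leading coefficients of `Y` and `kt` are equal. (2) `s ≥
2`: difference of the two sides `= (s-1) c₁ b (b+1) (1/2 - 1/t) a^t + O(a^(t-1))`. -/
def NTSStmt : Prop :=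
  ∀ p w r : ℕ, PrT p w r → ∀ K : ℕ, ∀ K₁ : ℝ, 0 < K₁ → ∃ K₂ : ℝ, 0 < K₂ ∧ ∃ a₀ : ℕ, ∀ a ≥ a₀,
    ∀ s, 1 ≤ s → s ≤ K → ∀ n σ : Fin (p + 4) → ℕ, (∀ j, n j + σ j = a + s) → (∀ j, σ j ≤ K) →
    ∑ j, σ j + r = (p + 3) * s →
    (s = 1 → Yt p w a K₁ n σ ≤ kt p w r a + K₂ * (a : ℝ) ^ (w + 1)) ∧
    (2 ≤ s → Yt p w a K₁ n σ * ((((p + 3) * a + r + a + 1 : ℕ)) : ℝ) ≤
      kt p w r a * ((((p + 3) * a + r + a + s : ℕ)) : ℝ))

/-- (NVT) The average deficit of the reference graph. Needs TTR, EST. PROOF. `TT (p+3) (w+2) a r = choose b (t-1) a^(t-1) + c₁ r a^(t-2) + O(a^(t-3))`,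
`kt = choose (b+1) t a^t + (choose b (t-1) (r+1) - c₁ (b-r)/2) a^(t-1) + O(a^(t-2))`; the coefficient of `a^(t-1)` of the left side is `c₁ (b-r)(w+1)/2`. -/
def NVTStmt : Prop :=
  ∀ p w r : ℕ, PrT p w r → ∃ K : ℝ, 0 < K ∧ ∃ a₀ : ℕ, ∀ a ≥ a₀, 0 < kt p w r a ∧
    (TT (p + 3) (w + 2) a r : ℝ) * ((((p + 3) * a + r + a + 1 : ℕ)) : ℝ) -
        ((w : ℝ) + 3) * kt p w r a ≤
      (ltt p w r * (a : ℝ) ^ (w + 1) + K * (a : ℝ) ^ w) * ((((p + 3) * a + r + a + 1 : ℕ)) : ℝ)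

/-- (RFT) The reference graph. Needs EST, TCT. PROOF. The graph `R` of `Pool.HZ7.RFGStmt`: at most `((b-r) a + 1)/2` edges are removed from the
Turán graph, each is in at most `choose (p+2) (w+1) (a+1)^(w+1)` cliques with `w + 3` vertices. -/
def RFTStmt : Prop :=
  ∀ p w r a : ℕ, PrT p w r → 1 ≤ a → ∃ R : SimpleGraph (Fin ((p + 3) * a + r + a + 1)),
    (∀ v, (R.neighborSet v).ncard ≤ (p + 3) * a + r) ∧ R.CliqueFree (p + 5) ∧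
    kt p w r a ≤
      ({s : Finset (Fin ((p + 3) * a + r + a + 1)) | R.IsNClique (w + 3) s}.ncard : ℝ)

/-! ### Assembly -/

/-- (BKT) A graph with many `t`-cliques has a core (as `Pool.HZ7.BLKStmt`). Needs WGT, PWT (1), NVT and the rows FND, ARR, COR of `HZ7`. -/
def BKTStmt : Prop :=
  ∀ p w r : ℕ, PrT p w r → ∃ C : ℝ, 0 < C ∧ ∃ a₀ : ℕ, ∀ a ≥ a₀,
    ∀ {V : Type} [Fintype V] [DecidableEq V] (G : SimpleGraph V), G8 G p r a → Nonempty V →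
    kt p w r a * Fintype.card V ≤
      kc G univ (w + 3) * ((((p + 3) * a + r + a + 1 : ℕ)) : ℝ) →
    ∃ Q, Cor G p r a C Q

/-- (MNT) The `t`-cliques meeting a block. Needs PWT (1), DLC, KBT, CRT, CQT, CST, AUG, MOD, NTS. `S = un Q`, `D = ∑ δ`, `cl` = left side.
PROOF. DLC; `tot = ∑ h = ∑ n σ + D`. KBT + CQT: `cl ≤ Yt (K₁) - (1/10) c₁ a^(w+1) D`, `K₁` = sum of the two constants. `s ≥ 2`: NTS (2), first alternative.
`s = 1`: `cl ≤ kt + K₂ a^(w+1) - (1/10) c₁ a^(w+1) D`, so first alternative if `D ≥ M := 10 K₂/c₁`. `D ≤ 1`: CRT (2): `G' = G`. `2 ≤ D ≤ M`: CST: `cl ≤ kc G S (w+3) +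
K a^w`; AUG and MOD: `G' = md G EA EB`, `card (nb G' S u) = card (nb G S u) + dgE EA u - dgE EB u ≤ Δ - δ u + δ u`. -/
def MNTStmt : Prop :=
  ∀ p w r : ℕ, PrT p w r → ∀ C : ℝ, 0 < C → ∃ a₀ : ℕ, ∀ a ≥ a₀,
    ∀ {V : Type} [Fintype V] [DecidableEq V] (G : SimpleGraph V) (Q : Fin (p + 4) → Finset V),
    G8 G p r a → Cor G p r a C Q → (un Q).Nonempty ∧ (un Q).card ≤ (p + 5) * a ∧
    (((kc G univ (w + 3) : ℝ) - kc G (univ \ un Q) (w + 3)) *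
        ((((p + 3) * a + r + a + 1 : ℕ)) : ℝ) ≤ kt p w r a * (un Q).card ∨
      ∃ G' : SimpleGraph V, (∀ u ∈ un Q, (nb G' (un Q) u).card ≤ (p + 3) * a + r) ∧
        CB G' (un Q) (p + 4) ∧
        (kc G univ (w + 3) : ℝ) - kc G (univ \ un Q) (w + 3) ≤ kc G' (un Q) (w + 3))

/-- (FNT) The theorem. Needs BKT, MNT, RFT, NVT. PROOF. `R` = a graph with the maximal number of `(w+3)`-cliques per vertex among the graphs on
`Fin n`, `1 ≤ n ≤ (p+5) a`, with degrees `≤ Δ` and no `(p+5)`-clique (finitely many; nonempty); its density is `≥ kt/(Δ+a+1)` (RFT; `Δ + a + 1 ≤ (p+5) a`).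
Then for all finite `V`, `G8 G p r a`: `kc G univ (w+3) * n ≤ kR * card V` by strong induction on `card V` (or on `W ⊆ V`, as in `Pool.HZ7.FNZStmt`):
if not, BKT (its hypothesis holds: the density of `G` is larger than that of `R`) and MNT give `S` with `cl ≤ (kR/n) card S` (second alternative:
`G'` on `S` is isomorphic to a graph on `Fin (card S)`), delete `S`. -/
def FNTStmt : Prop :=
  ∀ p w r : ℕ, PrT p w r → ∃ a₀ : ℕ, ∀ a ≥ a₀,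
    ∃ (n : ℕ) (R : SimpleGraph (Fin n)), 1 ≤ n ∧ n ≤ (p + 5) * a ∧
      (∀ v, (R.neighborSet v).ncard ≤ (p + 3) * a + r) ∧ R.CliqueFree (p + 5) ∧
      ∀ (m : ℕ) (H : SimpleGraph (Fin m)),
        (∀ v, (H.neighborSet v).ncard ≤ (p + 3) * a + r) → H.CliqueFree (p + 5) →
        {s : Finset (Fin m) | H.IsNClique (w + 3) s}.ncard * n ≤
          {s : Finset (Fin n) | R.IsNClique (w + 3) s}.ncard * m

end Pool.IA7
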