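import Pool.Agent.H7.HZ.Stmts

/-!
# Cliques with `t ≥ 4` vertices, large residues: definitions of the board `ia` (MP_fd41b2_co)

`b = p + 3 = ω - 1`, `t = w + 3`, `w ≥ 1`, `Δ = (p + 3) a + r`.
-/

set_option autoImplicit false

open Finset

namespace Pool.IA7

open Pool.Agent.H23.KT Pool.Agent.H46.KW Pool.KQ Pool.GT7 Pool.GU7 Pool.HZ7

/-- The conditions of the theorem, `c₁ = choose (b-1) (w+1)`:
`2 r choose (r-1) (w+1) < c₁ (2 r - (w+1)(b-r))`. They imply `PrZ p r`. -/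
structure PrT (p w r : ℕ) : Prop where
  w1 : 1 ≤ w
  wp : w ≤ p
  rp : r ≤ p
  rs : 2 * r * (r - 1).choose (w + 1) + (p + 2).choose (w + 1) * ((w + 1) * (p + 3 - r)) <
    (p + 2).choose (w + 1) * (2 * r)

/-- `c₁ = choose (b - 1) (t - 2)`. -/
noncomputable def c1 (p w : ℕ) : ℝ := ((p + 2).choose (w + 1) : ℝ)

/-- The factor `(w + 1) (b - r) / (2 r)`. -/
noncomputable def pt (p w r : ℕ) : ℝ := ((w : ℝ) + 1) * ((p : ℝ) + 3 - r) / (2 * r)

/-- The multiplier: `Mt * a ^ b = c₁ pt a ^ (w + 1)`. -/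
noncomputable def Mt (p w r a : ℕ) : ℝ := c1 p w * pt p w r * (a : ℝ) ^ (w + 1) / (a : ℝ) ^ (p + 3)

/-- `Mt * a ^ b * (r / (b + 1)) = ltt * a ^ (w + 1)`. -/
noncomputable def ltt (p w r : ℕ) : ℝ :=
  ((w : ℝ) + 1) * c1 p w * ((p : ℝ) + 3 - r) / (2 * ((p : ℝ) + 4))

/-- A lower bound for the number of `t`-cliques of the reference graph with `Δ + a + 1` vertices. -/
noncomputable def kt (p w r a : ℕ) : ℝ :=
  (TT (p + 4) (w + 3) a (r + 1) : ℝ) -
    (((p + 3 - r : ℕ) : ℝ) * a + 1) / 2 * (c1 p w * ((a : ℝ) + 1) ^ (w + 1))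

/-- The number of `t`-cliques of a block without deficit, up to the error `K a ^ (w + 1)`. -/
noncomputable def Yt (p w a : ℕ) (K : ℝ) (n σ : Fin (p + 4) → ℕ) : ℝ :=
  (es n (w + 3) : ℝ) - 1 / 2 * c1 p w * (a : ℝ) ^ (w + 1) * ∑ j, (n j : ℝ) * σ j +
    K * (a : ℝ) ^ (w + 1)

/-- The pairs of nonadjacent vertices in different parts. -/
def mis {V : Type} (G : SimpleGraph V) {b : ℕ} (Q : Fin b → Finset V) : Set (Sym2 V) :=
  {x | ∃ i j u v, i ≠ j ∧ u ∈ Q i ∧ v ∈ Q j ∧ ¬ G.Adj u v ∧ x = s(u, v)}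

/-- The edges between different parts. -/
def cro {V : Type} (G : SimpleGraph V) {b : ℕ} (Q : Fin b → Finset V) : Set (Sym2 V) :=
  {x | ∃ i j u v, i ≠ j ∧ u ∈ Q i ∧ v ∈ Q j ∧ G.Adj u v ∧ x = s(u, v)}

/-- The edges `EA` are added, the edges `EB` are removed. -/
def md {V : Type} (G : SimpleGraph V) (EA EB : Finset (Sym2 V)) : SimpleGraph V :=
  SimpleGraph.fromEdgeSet ((G.edgeSet ∪ (EA : Set (Sym2 V))) \ (EB : Set (Sym2 V)))

open Classical in
/-- The number of elements of `E` which contain `u`. -/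
noncomputable def dgE {V : Type} (E : Finset (Sym2 V)) (u : V) : ℕ := (E.filter (fun x => u ∈ x)).card

end Pool.IA7
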